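import Pool.Agent.NRC.Targets
import Pool.Agent.HER47.Base

/-!
# NRV: adding `C log n` random vertices to any graph makes it reconstructible (MP_552896_co)

One file per target: `Pool/Agent/NRV/P_X.lean`, theorem `Pool.Agent.NRV.p_X (other targets) : T_X`.
-/

set_option autoImplicit false

open Finset Classical

namespace Pool.Agent.NRV

open Pool.Agent Pool.Agent.Lib.Recon Pool.Agent.RNB Pool.Agent.NRC

/-- the graphs which agree with `H` on the pairs of vertices outside `S` -/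
noncomputable def Fam {V : Type} [Fintype V] (H : SimpleGraph V) (S : Finset V) :
    Finset (SimpleGraph V) :=
  univ.filter (fun G => ∀ x y, x ∉ S → y ∉ S → (G.Adj x y ↔ H.Adj x y))

/-- TOG. PROOF. `S1 = S \ {u, v}`, `D G = dset G u v ∩ S ⊆ S1`. For `T ⊆ S1` let `tog T G` be the
graph `G` with the pairs `w u`, `w ∈ T`, toggled (`Adj x y` iff `G.Adj x y` xor
(`x = u` and `y ∈ T`, or `y = u` and `x ∈ T`); `u ∉ T`). It is in `Fam H S` (only pairs which meet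
`S` are changed), `tog T (tog T G) = G`, and `D (tog T G) = symmDiff (D G) T`. So
`#{G : |D G| < m} = #{G : |symmDiff (D G) T| < m}` for every `T ⊆ S1`; sum over `T`:
`2^|S1| * #{G : |D G| < m} = ∑_G #{T ⊆ S1 : |symmDiff (D G) T| < m} =
|Fam| * ∑ i < m, (|S1|).choose i` (`T ↦ symmDiff (D G) T` is a bijection of the subsets of `S1`).
Finally `|dset G u v| < m` implies `|D G| < m`. -/
def T_TOG : Prop := ∀ (V : Type) [Fintype V] (H : SimpleGraph V) (S : Finset V) (u v : V) (m : ℕ),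
  u ≠ v → 2 ^ (S \ {u, v}).card * ((Fam H S).filter (fun G => (dset G u v).card < m)).card ≤
    (Fam H S).card * ∑ i ∈ range m, (S \ {u, v}).card.choose i

/-- FRA (from TOG; `p_BIN` in RNB/P_BIN.lean). PROOF. `s1 = |S \ {u, v}| ≥ |S| - 2 ≥ 32 m`. By
`p_BIN` each `s1.choose i`, `i < m`, is at most `2^((13/64) s1)`. So by TOG the number of the
`G ∈ Fam H S` with `|dset G u v| < m` is at most `|Fam| * m * 2^(-(51/64) s1) ≤
|Fam| * 4 * m * 2^(-(51/64) |S|)`. Sum over the at most `n^2` pairs. -/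
def T_FRA : Prop := ∀ (V : Type) [Fintype V] (H : SimpleGraph V) (S : Finset V) (m : ℕ),
  32 * m + 2 ≤ S.card →
  (((Fam H S).filter (fun G => ∃ u v, u ≠ v ∧ (dset G u v).card < m)).card : ℝ) ≤
    (Fam H S).card * (4 * (Fintype.card V : ℝ) ^ 2 * m * (2 : ℝ) ^ (-(51 / 64 : ℝ) * S.card))

/-- the statement of `Pool.Agent.NRT.crit` (Pool/Agent/NRT/Crit.lean, landed) -/
def T_CRT : Prop := ∃ C : ℝ, 0 < C ∧ ∀ (V : Type) [Fintype V] (G : SimpleGraph V)
    (Y : Finset V), 3 ≤ Fintype.card V →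
    C * Real.logb 2 (Fintype.card V) * Y.card ≤ Fintype.card V →
    (∀ u v, u ∉ Y → v ∉ Y → u ≠ v →
      C * Real.logb 2 (Fintype.card V) ≤ ((dset G u v).card : ℝ)) → HER47.Rec G

/-- SMO (from FRA, CRT). PROOF. `C1` from CRT, `C = 32 C1 + 100`, `l = log_2 n ≥ 1`,
`s = |S| ≥ C l`, `m = ⌈C1 l⌉ ≤ C1 l + 1`, so `32 m + 2 ≤ 32 C1 l + 34 ≤ s`. By CRT with `Y =
∅` a non-reconstructible `G` has `u ≠ v` with `|dset G u v| < C1 l ≤ m`. FRA; and
`4 n^2 m ≤ 2^(2 + 2 l) * s ≤ 2^(4 l) * 2^(s / 8 + 3) ≤ 2^((19/64) s)`: `s ≤ 2^(s / 8 + 3)`, and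
`4 l + 3 ≤ 7 l ≤ (11/64) s` as `s ≥ 100 l`. -/
def T_SMO : Prop := ∃ C : ℝ, 0 < C ∧ ∀ (V : Type) [Fintype V] (H : SimpleGraph V) (S : Finset V),
  3 ≤ Fintype.card V → C * Real.logb 2 (Fintype.card V) ≤ S.card →
  (((Fam H S).filter (fun G => ¬ HER47.Rec G)).card : ℝ) ≤
    (2 : ℝ) ^ (-(S.card : ℝ) / 2) * (Fam H S).card

end Pool.Agent.NRV
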