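import Pool.Agent.NRV.Targets
import Pool.Agent.RNB.P_BIN

/-!
# NRV: FRA, the union bound
-/

set_option autoImplicit false

open Finset Classical

namespace Pool.Agent.NRV

open Pool.Agent Pool.Agent.Lib.Recon Pool.Agent.RNB Pool.Agent.NRC

namespace FRA_

/-- The real inequality for one pair. -/
theorem real_bound (s s1 m N : ℕ) (F S0 : ℝ) (hF : 0 ≤ F) (hs : s ≤ s1 + 2)
    (hS0 : S0 ≤ m * (2 : ℝ) ^ ((13 / 64 : ℝ) * s1)) (h : (2 : ℝ) ^ s1 * (N : ℝ) ≤ F * S0) :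
    (N : ℝ) ≤ F * (4 * m * (2 : ℝ) ^ (-(51 / 64 : ℝ) * s)) := by
  have h5 : (2 : ℝ) ^ ((13 / 64 : ℝ) * s1) = (2 : ℝ) ^ s1 * (2 : ℝ) ^ (-(51 / 64 : ℝ) * s1) := by
    rw [← Real.rpow_natCast, ← Real.rpow_add two_pos]
    congr 1
    ring
  have h6 : (2 : ℝ) ^ (-(51 / 64 : ℝ) * s1) ≤ 4 * (2 : ℝ) ^ (-(51 / 64 : ℝ) * s) := by
    have e4 : (4 : ℝ) = (2 : ℝ) ^ (2 : ℝ) := by norm_num
    rw [e4, ← Real.rpow_add two_pos]
    refine Real.rpow_le_rpow_of_exponent_le one_le_two ?_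
    have h7 : (s : ℝ) ≤ s1 + 2 := by exact_mod_cast hs
    linarith
  have hp : (0 : ℝ) < (2 : ℝ) ^ s1 := by positivity
  have h8 : (2 : ℝ) ^ s1 * (N : ℝ) ≤
      (2 : ℝ) ^ s1 * (F * (4 * m * (2 : ℝ) ^ (-(51 / 64 : ℝ) * s))) := by
    calc (2 : ℝ) ^ s1 * (N : ℝ) ≤ F * S0 := h
      _ ≤ F * (m * (2 : ℝ) ^ ((13 / 64 : ℝ) * s1)) := mul_le_mul_of_nonneg_left hS0 hF
      _ = (2 : ℝ) ^ s1 * (F * (m * (2 : ℝ) ^ (-(51 / 64 : ℝ) * s1))) := by
          rw [h5]
          ring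
      _ ≤ (2 : ℝ) ^ s1 * (F * (m * (4 * (2 : ℝ) ^ (-(51 / 64 : ℝ) * s)))) := by
          gcongr
      _ = _ := by ring
  exact le_of_mul_le_mul_left h8 hp

/-- The sum of the binomial coefficients. -/
theorem sum_bound (s1 m : ℕ) (h : 32 * m ≤ s1) :
    ∑ i ∈ range m, ((s1.choose i : ℕ) : ℝ) ≤ m * (2 : ℝ) ^ ((13 / 64 : ℝ) * s1) := by
  calc ∑ i ∈ range m, ((s1.choose i : ℕ) : ℝ)
      ≤ ∑ _i ∈ range m, (2 : ℝ) ^ ((13 / 64 : ℝ) * s1) :=
        Finset.sum_le_sum fun i hi => p_BIN s1 i (by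
          have := Finset.mem_range.1 hi
          omega)
    _ = _ := by rw [Finset.sum_const, Finset.card_range, nsmul_eq_mul]

end FRA_

open FRA_

theorem p_FRA (h1 : T_TOG) : T_FRA := by
  intro V _ H S m hm
  have hb : ∀ u v : V, u ≠ v → (((Fam H S).filter (fun G => (dset G u v).card < m)).card : ℝ) ≤
      (Fam H S).card * (4 * m * (2 : ℝ) ^ (-(51 / 64 : ℝ) * S.card)) := by
    intro u v huv
    have h3 := h1 V H S u v m huv
    have hS : S.card ≤ (S \ {u, v}).card + 2 :=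
      (Finset.card_le_card_sdiff_add_card (s := S) (t := {u, v})).trans
        (Nat.add_le_add_left Finset.card_le_two _)
    have h3r : (2 : ℝ) ^ (S \ {u, v}).card *
        (((Fam H S).filter (fun G => (dset G u v).card < m)).card : ℝ) ≤
        (Fam H S).card * ∑ i ∈ range m, (((S \ {u, v}).card.choose i : ℕ) : ℝ) := by
      exact_mod_cast h3
    exact real_bound S.card (S \ {u, v}).card m _ _ _ (Nat.cast_nonneg _) hS
      (sum_bound _ m (by omega)) h3r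
  have hb0 : (0 : ℝ) ≤ (Fam H S).card * (4 * m * (2 : ℝ) ^ (-(51 / 64 : ℝ) * S.card)) := by
    positivity
  have hsub : (Fam H S).filter (fun G => ∃ u v, u ≠ v ∧ (dset G u v).card < m) ⊆
      (univ : Finset (V × V)).biUnion fun p =>
        (Fam H S).filter (fun G => p.1 ≠ p.2 ∧ (dset G p.1 p.2).card < m) := by
    intro G hG
    obtain ⟨hG1, u, v, huv, hlt⟩ := Finset.mem_filter.1 hG
    exact Finset.mem_biUnion.2 ⟨(u, v), Finset.mem_univ _, Finset.mem_filter.2 ⟨hG1, huv, hlt⟩⟩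
  have hcard := (Finset.card_le_card hsub).trans Finset.card_biUnion_le
  have hcardr : (((Fam H S).filter (fun G => ∃ u v, u ≠ v ∧ (dset G u v).card < m)).card : ℝ) ≤
      ∑ p : V × V,
        (((Fam H S).filter (fun G => p.1 ≠ p.2 ∧ (dset G p.1 p.2).card < m)).card : ℝ) := by
    exact_mod_cast hcard
  refine hcardr.trans ?_
  have hp : ∀ p ∈ (univ : Finset (V × V)),
      (((Fam H S).filter (fun G => p.1 ≠ p.2 ∧ (dset G p.1 p.2).card < m)).card : ℝ) ≤
      (Fam H S).card * (4 * m * (2 : ℝ) ^ (-(51 / 64 : ℝ) * S.card)) := by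
    intro p _
    by_cases hne : p.1 = p.2
    · have h0 : (Fam H S).filter (fun G => p.1 ≠ p.2 ∧ (dset G p.1 p.2).card < m) = ∅ :=
        Finset.filter_eq_empty_iff.2 fun G _ h => h.1 hne
      rw [h0, Finset.card_empty, Nat.cast_zero]
      exact hb0
    · refine le_trans ?_ (hb p.1 p.2 hne)
      have h2 : (Fam H S).filter (fun G => p.1 ≠ p.2 ∧ (dset G p.1 p.2).card < m) ⊆
          (Fam H S).filter (fun G => (dset G p.1 p.2).card < m) := by
        intro G hG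
        obtain ⟨hG1, hG2⟩ := Finset.mem_filter.1 hG
        exact Finset.mem_filter.2 ⟨hG1, hG2.2⟩
      exact_mod_cast Finset.card_le_card h2
  refine (Finset.sum_le_sum hp).trans (le_of_eq ?_)
  rw [Finset.sum_const, Finset.card_univ, Fintype.card_prod, nsmul_eq_mul]
  push_cast
  ring

end Pool.Agent.NRV
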