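import Pool.Agent.NRV.Targets

/-!
# NRV, target SMO: adding `C log n` random vertices makes a graph reconstructible
-/

set_option autoImplicit false

open Finset Classical

namespace Pool.Agent.NRV

open Pool.Agent Pool.Agent.Lib.Recon Pool.Agent.RNB Pool.Agent.NRC

namespace SMO_

/-- `x / 8` is at most `2 ^ (x / 4)`. -/
lemma lin_le {x : ℝ} (hx : 0 ≤ x) : x / 8 ≤ (2 : ℝ) ^ (x / 4) := by
  have h1 : (2 : ℝ) ^ (x / 4) = Real.exp (Real.log 2 * (x / 4)) :=
    Real.rpow_def_of_pos (by norm_num) _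
  have h2 := Real.add_one_le_exp (Real.log 2 * (x / 4))
  have h3 := Real.log_two_gt_d9
  rw [h1]
  nlinarith

/-- The estimate. -/
lemma est {n l m s : ℝ} (hn : n = (2 : ℝ) ^ l) (hs : 0 ≤ s) (hm0 : 0 ≤ m) (hm : 32 * m ≤ s)
    (hl : 100 * l ≤ s) :
    4 * n ^ 2 * m * (2 : ℝ) ^ (-(51 / 64 : ℝ) * s) ≤ (2 : ℝ) ^ (-s / 2) := by
  have h1 : 4 * m ≤ (2 : ℝ) ^ (s / 4) := le_trans (by linarith) (lin_le hs)
  have h2 : n ^ 2 ≤ (2 : ℝ) ^ (s / 50) := by
    rw [hn, ← Real.rpow_natCast, ← Real.rpow_mul (by norm_num)]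
    refine Real.rpow_le_rpow_of_exponent_le (by norm_num) ?_
    push_cast
    linarith
  have h3 : 4 * n ^ 2 * m ≤ (2 : ℝ) ^ (s / 50) * (2 : ℝ) ^ (s / 4) := by
    have h4 : n ^ 2 * (4 * m) ≤ (2 : ℝ) ^ (s / 50) * (2 : ℝ) ^ (s / 4) :=
      mul_le_mul h2 h1 (by linarith) (Real.rpow_nonneg (by norm_num) _)
    linarith
  refine (mul_le_mul_of_nonneg_right h3 (Real.rpow_nonneg (by norm_num) _)).trans ?_
  rw [← Real.rpow_add (by norm_num), ← Real.rpow_add (by norm_num)]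
  refine Real.rpow_le_rpow_of_exponent_le (by norm_num) ?_
  linarith

end SMO_

open SMO_ in
theorem p_SMO (h1 : T_FRA) (h2 : T_CRT) : T_SMO := by
  obtain ⟨C1, hC1, hcrt⟩ := h2
  refine ⟨32 * C1 + 100, by positivity, fun V _ H S hn hs => ?_⟩
  obtain ⟨l, hl⟩ : ∃ l : ℝ, l = Real.logb 2 (Fintype.card V) := ⟨_, rfl⟩
  have hn0 : (0 : ℝ) < Fintype.card V := by
    exact_mod_cast (show 0 < Fintype.card V by omega)
  have hl1 : 1 ≤ l := by
    rw [hl, Real.le_logb_iff_rpow_le (by norm_num) hn0, Real.rpow_one]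
    exact_mod_cast (show 2 ≤ Fintype.card V by omega)
  rw [← hl] at hs
  obtain ⟨m, hm⟩ : ∃ m : ℕ, m = ⌈C1 * l⌉₊ := ⟨_, rfl⟩
  have hCl : 0 ≤ C1 * l := mul_nonneg hC1.le (by linarith)
  have hm1 : C1 * l ≤ m := by
    rw [hm]
    exact Nat.le_ceil _
  have hm2 : (m : ℝ) < C1 * l + 1 := by
    rw [hm]
    exact Nat.ceil_lt_add_one hCl
  have hms' : (32 : ℝ) * m + 2 ≤ S.card := by nlinarith
  have hms : 32 * m + 2 ≤ S.card := by exact_mod_cast hms'
  have hf := h1 V H S m hms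
  have hsub : (Fam H S).filter (fun G => ¬ HER47.Rec G) ⊆
      (Fam H S).filter (fun G => ∃ u v, u ≠ v ∧ (dset G u v).card < m) := by
    intro G hG
    rw [Finset.mem_filter] at hG ⊢
    refine ⟨hG.1, ?_⟩
    by_contra hcon
    push Not at hcon
    refine hG.2 (hcrt V G ∅ hn (by simp) fun u v _ _ huv => ?_)
    rw [← hl]
    exact hm1.trans (by exact_mod_cast hcon u v huv)
  have hc : (((Fam H S).filter (fun G => ¬ HER47.Rec G)).card : ℝ) ≤
      (((Fam H S).filter (fun G => ∃ u v, u ≠ v ∧ (dset G u v).card < m)).card : ℝ) := by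
    exact_mod_cast Finset.card_le_card hsub
  refine (hc.trans hf).trans ?_
  rw [mul_comm]
  refine mul_le_mul_of_nonneg_right ?_ (Nat.cast_nonneg _)
  refine est (l := l) ?_ (Nat.cast_nonneg _) (Nat.cast_nonneg _) (by linarith) (by nlinarith)
  rw [hl, Real.rpow_logb (by norm_num) (by norm_num) hn0]

end Pool.Agent.NRV
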