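import Pool.Agent.NRV.Targets

/-!
# NRV-TOG: toggling the pairs at one vertex, double counting
-/

set_option autoImplicit false

open Finset Classical

namespace Pool.Agent.NRV

open Pool.Agent Pool.Agent.Lib.Recon Pool.Agent.RNB Pool.Agent.NRC

namespace TOG_

variable {V : Type} [Fintype V]

theorem mem_dset (G : SimpleGraph V) (u v w : V) :
    w ∈ dset G u v ↔ w ≠ u ∧ w ≠ v ∧ ¬ (G.Adj w u ↔ G.Adj w v) := by
  simp only [dset, mem_filter, mem_univ, true_and]

theorem mem_Fam (H G : SimpleGraph V) (S : Finset V) :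
    G ∈ Fam H S ↔ ∀ x y, x ∉ S → y ∉ S → (G.Adj x y ↔ H.Adj x y) := by
  simp only [Fam, mem_filter, mem_univ, true_and]

/-- the pairs `w u`, `w ∈ T` -/
def PP (u : V) (T : Finset V) (x y : V) : Prop :=
  (x = u ∧ y ≠ u ∧ y ∈ T) ∨ (y = u ∧ x ≠ u ∧ x ∈ T)

theorem PP_symm (u : V) (T : Finset V) (x y : V) : PP u T x y ↔ PP u T y x := by
  unfold PP
  exact or_comm

/-- the graph with the pairs `w u`, `w ∈ T`, toggled -/
def tog (u : V) (T : Finset V) (G : SimpleGraph V) : SimpleGraph V where
  Adj x y := ¬ (G.Adj x y ↔ PP u T x y)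
  symm := by
    refine ⟨fun x y h => ?_⟩
    rw [G.adj_comm, PP_symm] at h
    exact h
  loopless := by
    refine ⟨fun x h => h ?_⟩
    refine iff_of_false (G.irrefl) ?_
    rintro (⟨h1, h2, -⟩ | ⟨h1, h2, -⟩)
    · exact h2 h1
    · exact h2 h1

theorem tog_adj (u : V) (T : Finset V) (G : SimpleGraph V) (x y : V) :
    (tog u T G).Adj x y ↔ ¬ (G.Adj x y ↔ PP u T x y) := Iff.rfl

theorem tog_tog (u : V) (T : Finset V) (G : SimpleGraph V) : tog u T (tog u T G) = G := by
  ext x y
  rw [tog_adj, tog_adj]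
  tauto

theorem tog_mem (H : SimpleGraph V) (S : Finset V) (u : V) (T : Finset V) (hT : T ⊆ S)
    (G : SimpleGraph V) (hG : G ∈ Fam H S) : tog u T G ∈ Fam H S := by
  rw [mem_Fam] at hG ⊢
  intro x y hx hy
  rw [tog_adj, ← hG x y hx hy]
  have h : ¬ PP u T x y := by
    rintro (⟨-, -, h⟩ | ⟨-, -, h⟩)
    · exact hy (hT h)
    · exact hx (hT h)
  tauto

/-- the differences in `S` -/
noncomputable def D (S : Finset V) (u v : V) (G : SimpleGraph V) : Finset V :=
  dset G u v ∩ (S \ {u, v})

theorem D_tog (S : Finset V) (u v : V) (huv : u ≠ v) (T : Finset V) (hT : T ⊆ S \ {u, v})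
    (G : SimpleGraph V) : D S u v (tog u T G) = symmDiff (D S u v G) T := by
  ext w
  rw [mem_symmDiff]
  unfold D
  rw [mem_inter, mem_inter, mem_dset, mem_dset, tog_adj, tog_adj]
  by_cases hw : w ∈ S \ {u, v}
  · have h1 : w ≠ u := by
      rintro rfl
      simp at hw
    have h2 : w ≠ v := by
      rintro rfl
      simp at hw
    have h3 : PP u T w u ↔ w ∈ T := by
      constructor
      · rintro (⟨h, -, -⟩ | ⟨-, -, h⟩)
        · exact absurd h h1
        · exact h
      · exact fun h => Or.inr ⟨rfl, h1, h⟩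
    have h4 : ¬ PP u T w v := by
      rintro (⟨h, -, -⟩ | ⟨h, -, -⟩)
      · exact h1 h
      · exact huv h.symm
    rw [h3]
    tauto
  · have h1 : w ∉ T := fun h => hw (hT h)
    tauto

theorem card_lt (S1 : Finset V) (m : ℕ) :
    (S1.powerset.filter fun U => U.card < m).card = ∑ i ∈ range m, S1.card.choose i := by
  rw [card_eq_sum_card_fiberwise (f := Finset.card) (t := range m)]
  · apply sum_congr rfl
    intro i hi
    rw [mem_range] at hi
    rw [← card_powersetCard]
    congr 1
    ext U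
    rw [mem_filter, mem_filter, mem_powerset, mem_powersetCard]
    constructor
    · rintro ⟨⟨h1, -⟩, h2⟩
      exact ⟨h1, h2⟩
    · rintro ⟨h1, h2⟩
      exact ⟨⟨h1, h2 ▸ hi⟩, h2⟩
  · intro U hU
    have h := (mem_filter.1 (mem_coe.1 hU)).2
    exact mem_coe.2 (mem_range.2 h)

theorem card_symm (S1 E : Finset V) (hE : E ⊆ S1) (m : ℕ) :
    (S1.powerset.filter fun T => (symmDiff E T).card < m).card =
      ∑ i ∈ range m, S1.card.choose i := by
  rw [← card_lt]
  have hsub : ∀ T, T ⊆ S1 → symmDiff E T ⊆ S1 := by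
    intro T hT w hw
    rw [mem_symmDiff] at hw
    rcases hw with h | h
    · exact hE h.1
    · exact hT h.1
  refine card_nbij' (fun T => symmDiff E T) (fun T => symmDiff E T) ?_ ?_ ?_ ?_
  · intro T hT
    have hT := mem_filter.1 (mem_coe.1 hT)
    refine mem_coe.2 (mem_filter.2 ⟨mem_powerset.2 (hsub T (mem_powerset.1 hT.1)), hT.2⟩)
  · intro T hT
    have hT := mem_filter.1 (mem_coe.1 hT)
    refine mem_coe.2 (mem_filter.2 ⟨mem_powerset.2 (hsub T (mem_powerset.1 hT.1)), ?_⟩)
    rw [symmDiff_symmDiff_cancel_left]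
    exact hT.2
  · intro T _
    exact symmDiff_symmDiff_cancel_left E T
  · intro T _
    exact symmDiff_symmDiff_cancel_left E T

theorem card_tog (H : SimpleGraph V) (S : Finset V) (u v : V) (huv : u ≠ v) (m : ℕ)
    (T : Finset V) (hT : T ⊆ S \ {u, v}) :
    ((Fam H S).filter fun G => (D S u v G).card < m).card =
      ((Fam H S).filter fun G => (symmDiff (D S u v G) T).card < m).card := by
  have hTS : T ⊆ S := hT.trans sdiff_subset
  refine card_nbij' (tog u T) (tog u T) ?_ ?_ ?_ ?_
  · intro G hG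
    have hG := mem_filter.1 (mem_coe.1 hG)
    refine mem_coe.2 (mem_filter.2 ⟨tog_mem H S u T hTS G hG.1, ?_⟩)
    rw [D_tog S u v huv T hT, symmDiff_symmDiff_cancel_right]
    exact hG.2
  · intro G hG
    have hG := mem_filter.1 (mem_coe.1 hG)
    refine mem_coe.2 (mem_filter.2 ⟨tog_mem H S u T hTS G hG.1, ?_⟩)
    rw [D_tog S u v huv T hT]
    exact hG.2
  · intro G _
    exact tog_tog u T G
  · intro G _
    exact tog_tog u T G

end TOG_

open TOG_ in
theorem p_TOG : T_TOG := by
  intro V _ H S u v m huv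
  have h1 : ((Fam H S).filter (fun G => (dset G u v).card < m)).card ≤
      ((Fam H S).filter fun G => (D S u v G).card < m).card := by
    apply card_le_card
    intro G hG
    rw [mem_filter] at hG ⊢
    exact ⟨hG.1, lt_of_le_of_lt (card_le_card inter_subset_left) hG.2⟩
  calc 2 ^ (S \ {u, v}).card * ((Fam H S).filter (fun G => (dset G u v).card < m)).card
      ≤ 2 ^ (S \ {u, v}).card * ((Fam H S).filter fun G => (D S u v G).card < m).card :=
        Nat.mul_le_mul_left _ h1
    _ = ∑ T ∈ (S \ {u, v}).powerset,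
          ((Fam H S).filter fun G => (D S u v G).card < m).card := by
        rw [sum_const, card_powerset, smul_eq_mul]
    _ = ∑ T ∈ (S \ {u, v}).powerset,
          ((Fam H S).filter fun G => (symmDiff (D S u v G) T).card < m).card :=
        sum_congr rfl fun T hT => card_tog H S u v huv m T (mem_powerset.1 hT)
    _ = ∑ G ∈ Fam H S,
          ((S \ {u, v}).powerset.filter fun T => (symmDiff (D S u v G) T).card < m).card :=
        sum_card_bipartiteAbove_eq_sum_card_bipartiteBelow
          (fun (T : Finset V) (G : SimpleGraph V) => (symmDiff (D S u v G) T).card < m)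
    _ = ∑ G ∈ Fam H S, ∑ i ∈ range m, (S \ {u, v}).card.choose i :=
        sum_congr rfl fun G _ => card_symm _ _ inter_subset_right m
    _ = (Fam H S).card * ∑ i ∈ range m, (S \ {u, v}).card.choose i := by
        rw [sum_const, smul_eq_mul]

end Pool.Agent.NRV
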