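import Pool.Agent.NRT.Crit
import Pool.Agent.NRV.P_TOG
import Pool.Agent.NRV.P_FRA
import Pool.Agent.NRV.P_SMO

/-!
# NRV: composition
-/

set_option autoImplicit false

namespace Pool.Agent.NRV

/-- for every graph `H` and every set `S` of at least `C log n` vertices at most a fraction
`2 ^ (- |S| / 2)` of the graphs which agree with `H` outside `S` is not reconstructible -/
theorem smo : T_SMO := p_SMO (p_FRA p_TOG) Pool.Agent.NRT.crit

end Pool.Agent.NRV
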